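import Pool.Agent.Helper85.CDU.Upper

/-!
MP_cd7e06_al, odd exponents: the conjugated form of the tower,

`X₀ = b a b⁻¹, Y₀ = a⁻¹, Z₀ = 1`, `X' = t X r⁻¹ t⁻¹, Y' = X Y r X⁻¹, Z' = r X Z r X⁻¹`,

where `r` commutes with `X Y` and `t` commutes with `Z'`, is simultaneously conjugate to the tower
of `Upper.lean`; hence the same upper bounds.
-/

set_option autoImplicit false

namespace H85CDU

open H74CL

section
variable {G : Type*} [Group G]

/-- the conjugated towers over `a, b` -/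
inductive TowerC (a b : G) : ℕ → G → G → G → Prop
  | zero : TowerC a b 0 (b * a * b⁻¹) a⁻¹ 1
  | succ {j : ℕ} {X Y Z : G} (r t : G) (hq : TowerC a b j X Y Z) (hr : Commute r (X * Y))
      (ht : Commute t (r * X * Z * r * X⁻¹)) :
      TowerC a b (j + 1) (t * X * r⁻¹ * t⁻¹) (X * Y * r * X⁻¹) (r * X * Z * r * X⁻¹)

/-- a conjugated tower is a conjugate of a tower -/
theorem TowerC.tower {a b : G} {j : ℕ} {X Y Z : G} (hq : TowerC a b j X Y Z) :
    ∃ (q : Q G) (g : G), Tower a b j q ∧ X = g * q.x * g⁻¹ ∧ Y = g * q.y * g⁻¹ ∧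
      Z = g * q.z * g⁻¹ := by
  induction hq with
  | zero =>
    refine ⟨q0 a b, b, Tower.zero, rfl, ?_, ?_⟩
    · simp only [q0]; group
    · simp only [q0]; group
  | @succ j X Y Z r t hq hr ht ih =>
    obtain ⟨q, g, hT, hX, hY, hZ⟩ := ih
    -- `r = g s g⁻¹`, `t = (g x) t₀ (g x)⁻¹`
    set s : G := g⁻¹ * r * g with hs
    set t₀ : G := (g * q.x)⁻¹ * t * (g * q.x) with ht₀
    have hr' : r = g * s * g⁻¹ := by rw [hs]; group
    have ht' : t = (g * q.x) * t₀ * (g * q.x)⁻¹ := by rw [ht₀]; group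
    have hcs : Commute s (q.x * q.y) := by
      have h1 : r * (X * Y) = X * Y * r := hr.eq
      rw [hX, hY, hr'] at h1
      have h2 : g * (s * (q.x * q.y)) * g⁻¹ = g * (q.x * q.y * s) * g⁻¹ := by
        calc g * (s * (q.x * q.y)) * g⁻¹
            = g * s * g⁻¹ * (g * q.x * g⁻¹ * (g * q.y * g⁻¹)) := by group
          _ = g * q.x * g⁻¹ * (g * q.y * g⁻¹) * (g * s * g⁻¹) := h1
          _ = g * (q.x * q.y * s) * g⁻¹ := by group
      exact mul_left_cancel (mul_right_cancel h2)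
    have hv : r * X * Z * r * X⁻¹ = (g * q.x) * nz q s * (g * q.x)⁻¹ := by
      rw [hX, hZ, hr']; simp only [nz]; group
    have hct : Commute t₀ (nz q s) := by
      have h1 : t * (r * X * Z * r * X⁻¹) = r * X * Z * r * X⁻¹ * t := ht.eq
      rw [hv, ht'] at h1
      have h2 : (g * q.x) * (t₀ * nz q s) * (g * q.x)⁻¹ =
          (g * q.x) * (nz q s * t₀) * (g * q.x)⁻¹ := by
        calc (g * q.x) * (t₀ * nz q s) * (g * q.x)⁻¹
            = (g * q.x) * t₀ * (g * q.x)⁻¹ * ((g * q.x) * nz q s * (g * q.x)⁻¹) := by group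
          _ = (g * q.x) * nz q s * (g * q.x)⁻¹ * ((g * q.x) * t₀ * (g * q.x)⁻¹) := h1
          _ = (g * q.x) * (nz q s * t₀) * (g * q.x)⁻¹ := by group
      exact mul_left_cancel (mul_right_cancel h2)
    refine ⟨nxt q s t₀, g * q.x * t₀, Tower.succ s t₀ hT hcs hct, ?_, ?_, ?_⟩
    · rw [hX, hr', ht']; simp only [nxt]; group
    · rw [hX, hY, hr']; simp only [nxt]; group
    · rw [hv]
      have h1 : (nxt q s t₀).z = nz q s := rfl
      have h2 : t₀ * nz q s * t₀⁻¹ = nz q s := by rw [hct.eq]; group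
      rw [h1]
      calc g * q.x * nz q s * (g * q.x)⁻¹
          = g * q.x * (t₀ * nz q s * t₀⁻¹) * (g * q.x)⁻¹ := by rw [h2]
        _ = g * q.x * t₀ * nz q s * (g * q.x * t₀)⁻¹ := by group

/-- the upper bound for the conjugated tower -/
theorem TowerC.pc {a b : G} {j : ℕ} {X Y Z : G} (hq : TowerC a b j X Y Z) (r : ℕ) :
    PC (r + 1 + j) ((X * Y) ^ (2 * r + 1)) := by
  obtain ⟨q, g, hT, hX, hY, -⟩ := hq.tower
  have : (X * Y) ^ (2 * r + 1) = g * (q.x * q.y) ^ (2 * r + 1) * g⁻¹ := by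
    rw [← conj_pow, hX, hY]
    congr 1
    group
  rw [this]
  exact (hT.pc r).conj g

lemma TowerC.mem {a b : G} {j : ℕ} {X Y Z : G} (hq : TowerC a b j X Y Z) :
    X * Y ∈ commutator G := by
  have := hq.pc 0
  simp only [mul_zero, zero_add, pow_one] at this
  exact this.mem_commutator

theorem TowerC.cl_le {a b : G} {j : ℕ} {X Y Z : G} (hq : TowerC a b j X Y Z) (r : ℕ) :
    cl ((X * Y) ^ (2 * r + 1)) ≤ r + 1 + j :=
  Nat.sInf_le (hq.pc r)

lemma TowerC.map {H : Type*} [Group H] (f : G →* H) {a b : G} {j : ℕ} {X Y Z : G}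
    (hq : TowerC a b j X Y Z) : TowerC (f a) (f b) j (f X) (f Y) (f Z) := by
  induction hq with
  | zero => simpa using TowerC.zero (a := f a) (b := f b)
  | @succ j X Y Z r t hq hr ht ih =>
    have := TowerC.succ (f r) (f t) ih (by simpa using hr.map f) (by simpa using ht.map f)
    simpa using this

/-- the conjugated tower with `r = (X Y) ^ n (2 i + 1)` and `t = Z' ^ n (2 i + 2)` at level `i`:
the triple `(X, Y, Z)` -/
def trip (a b : G) (n : ℕ → ℕ) : ℕ → G × G × G
  | 0 => (b * a * b⁻¹, a⁻¹, 1)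
  | i + 1 =>
    let X := (trip a b n i).1
    let Y := (trip a b n i).2.1
    let Z := (trip a b n i).2.2
    let r := (X * Y) ^ n (2 * i + 1)
    let v := r * X * Z * r * X⁻¹
    let t := v ^ n (2 * i + 2)
    (t * X * r⁻¹ * t⁻¹, X * Y * r * X⁻¹, v)

lemma towerC_trip (a b : G) (n : ℕ → ℕ) (j : ℕ) :
    TowerC a b j (trip a b n j).1 (trip a b n j).2.1 (trip a b n j).2.2 := by
  induction j with
  | zero => exact TowerC.zero
  | succ j ih =>
    exact TowerC.succ _ _ ih ((Commute.refl _).pow_left _) ((Commute.refl _).pow_left _)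

lemma trip_map {H : Type*} [Group H] (f : G →* H) (a b : G) (n : ℕ → ℕ) (j : ℕ) :
    trip (f a) (f b) n j = (f (trip a b n j).1, f (trip a b n j).2.1, f (trip a b n j).2.2) := by
  induction j with
  | zero => simp [trip]
  | succ j ih => simp [trip, ih]

end

/-- all pairs `(k, m)` with `m` odd, from the lower bounds for the conjugated tower -/
theorem adm_odd_of_lowerC
    (hlow : ∀ r j : ℕ, ∃ (a b X Y Z : FreeGroup (Fin 2)),
      TowerC a b j X Y Z ∧ ∀ g, PC g ((X * Y) ^ (2 * r + 1)) → r + 1 + j ≤ g)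
    (k m : ℕ) (hm : Odd m) (hk : m < 2 * k) : Adm k m := by
  obtain ⟨r, hr⟩ := hm
  obtain ⟨a, b, X, Y, Z, hq, hl⟩ := hlow r (k - (r + 1))
  refine ⟨X * Y, hq.mem, ?_⟩
  have h := cl_eq (hq.pc r) hl
  rw [hr, h]; omega

/-- all pairs `(k, m)` with `m` odd, from the lower bounds for the words `X Y` of the conjugated
tower with the exponents `n` -/
theorem adm_odd_of_exps
    (hlow : ∀ r j : ℕ, ∃ n : ℕ → ℕ, ∀ g,
      PC g (((trip (FreeGroup.of 0) (FreeGroup.of 1) n j).1 *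
        (trip (FreeGroup.of 0) (FreeGroup.of (1 : Fin 2)) n j).2.1) ^ (2 * r + 1)) →
        r + 1 + j ≤ g)
    (k m : ℕ) (hm : Odd m) (hk : m < 2 * k) : Adm k m := by
  refine adm_odd_of_lowerC (fun r j => ?_) k m hm hk
  obtain ⟨n, hn⟩ := hlow r j
  exact ⟨_, _, _, _, _, towerC_trip (FreeGroup.of 0) (FreeGroup.of 1) n j, hn⟩

end H85CDU
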