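import Pool.Agent.Helper74.CL.Defs

/-!
MP_cd7e06_al, odd exponents: the tower of quadruples `(x, y, z, h)` of helper68, its invariant,
and the upper bound `cl ((x y) ^ (2 r + 1)) ≤ r + 1 + j` at level `j`.

Everything is proved in an arbitrary group, for arbitrary elements `s`, `t` of the centralizers
of `x y` and of `z' = x⁻¹ s x z s`.
-/

set_option autoImplicit false

namespace H85CDU

open H74CL

/-- a level of the tower -/
structure Q (G : Type*) where
  x : G
  y : G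
  z : G
  h : G

section
variable {G : Type*} [Group G]

/-- the next `z` -/
def nz (q : Q G) (s : G) : G := q.x⁻¹ * s * q.x * q.z * s

/-- the next level -/
def nxt (q : Q G) (s t : G) : Q G :=
  ⟨s⁻¹ * q.x, t⁻¹ * (q.y * s) * t, nz q s, q.h * t⟩

/-- the bottom level -/
def q0 (a b : G) : Q G := ⟨a, b⁻¹ * a⁻¹ * b, 1, b⟩

/-- the towers over `a, b` -/
inductive Tower (a b : G) : ℕ → Q G → Prop
  | zero : Tower a b 0 (q0 a b)
  | succ {j : ℕ} {q : Q G} (s t : G) (hq : Tower a b j q) (hs : Commute s (q.x * q.y))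
      (ht : Commute t (nz q s)) : Tower a b (j + 1) (nxt q s t)

/-- the invariant -/
def Inv (q : Q G) : Prop := q.x * q.z * q.x = q.h * (q.y⁻¹ * q.z * q.y⁻¹) * q.h⁻¹

lemma inv_q0 (a b : G) : Inv (q0 a b) := by
  simp only [Inv, q0]; group

lemma inv_nxt {q : Q G} (hq : Inv q) {s t : G} (hs : Commute s (q.x * q.y))
    (ht : Commute t (nz q s)) : Inv (nxt q s t) := by
  have e1 : (nxt q s t).x * (nxt q s t).z * (nxt q s t).x = q.x * q.z * q.x := by
    simp only [nxt, nz]; group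
  have e2 : (nxt q s t).y⁻¹ * (nxt q s t).z * (nxt q s t).y⁻¹ =
      t⁻¹ * (q.y⁻¹ * q.z * q.y⁻¹) * t := by
    have h1 : t * nz q s * t⁻¹ = nz q s := by rw [ht.eq]; group
    have h2 : s⁻¹ * (q.x * q.y)⁻¹ * s = (q.x * q.y)⁻¹ := by
      have := hs.inv_right.eq
      rw [mul_assoc, ← this]; group
    calc (nxt q s t).y⁻¹ * (nxt q s t).z * (nxt q s t).y⁻¹
        = t⁻¹ * s⁻¹ * q.y⁻¹ * (t * nz q s * t⁻¹) * s⁻¹ * q.y⁻¹ * t := by
          simp only [nxt]; group
      _ = t⁻¹ * (s⁻¹ * (q.x * q.y)⁻¹ * s) * q.x * q.z * q.y⁻¹ * t := by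
          rw [h1]; simp only [nz]; group
      _ = t⁻¹ * (q.y⁻¹ * q.z * q.y⁻¹) * t := by rw [h2]; group
  have e3 : (nxt q s t).h = q.h * t := rfl
  rw [Inv, e1, e2, e3, hq]; group

lemma Tower.inv {a b : G} {j : ℕ} {q : Q G} (hq : Tower a b j q) : Inv q := by
  induction hq with
  | zero => exact inv_q0 a b
  | succ s t hq hs ht ih => exact inv_nxt ih hs ht

/-- `x² y²` is a commutator -/
lemma Inv.sq {q : Q G} (hq : Inv q) :
    q.x * q.x * q.y * q.y = (q.x * q.x * q.z) * (q.x * q.h * q.y)⁻¹ * (q.x * q.x * q.z)⁻¹ *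
      (q.x * q.h * q.y)⁻¹⁻¹ := by
  have h1 : q.x * q.z * q.x * (q.h * (q.y * q.z⁻¹ * q.y) * q.h⁻¹) = 1 := by
    rw [Inv] at hq
    rw [hq]; group
  have h2 : q.z⁻¹ * q.y * q.y =
      (q.x * q.h * q.y)⁻¹ * (q.x * q.x * q.z)⁻¹ * (q.x * q.h * q.y) := by
    have : q.z⁻¹ * q.y * q.y = (q.x * q.h * q.y)⁻¹ * (q.x * q.x * q.z)⁻¹ *
        (q.x * (q.x * q.z * q.x * (q.h * (q.y * q.z⁻¹ * q.y) * q.h⁻¹)) * q.x⁻¹) *
        (q.x * q.h * q.y) := by group
    rw [this, h1]; group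
  calc q.x * q.x * q.y * q.y = (q.x * q.x * q.z) * (q.z⁻¹ * q.y * q.y) := by group
    _ = _ := by rw [h2]; group

/-- `(y x) (x y)` is a product of one commutator -/
lemma Inv.pc_yxxy {q : Q G} (hq : Inv q) : PC 1 ((q.y * q.x) * (q.x * q.y)) := by
  have : (q.y * q.x) * (q.x * q.y) = q.y * (q.x * q.x * q.y * q.y) * q.y⁻¹ := by group
  rw [this, hq.sq]
  exact (PC.one _ _).conj _

/-- `(y x) ^ r (x y) ^ r` is a product of `r` commutators -/
lemma Inv.pc_pow {q : Q G} (hq : Inv q) (r : ℕ) :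
    PC r ((q.y * q.x) ^ r * (q.x * q.y) ^ r) := by
  induction r with
  | zero => simpa using PC.zero
  | succ r ih =>
    have : (q.y * q.x) ^ (r + 1) * (q.x * q.y) ^ (r + 1) =
        (q.y * q.x) ^ r * ((q.y * q.x) * (q.x * q.y)) * ((q.y * q.x) ^ r)⁻¹ *
          ((q.y * q.x) ^ r * (q.x * q.y) ^ r) := by
      rw [pow_succ (q.y * q.x) r, pow_succ' (q.x * q.y) r]
      simp only [mul_assoc, inv_mul_cancel_left]
    rw [this, add_comm r 1]
    exact (hq.pc_yxxy.conj _).mul ih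

/-- `x · p y p⁻¹` is a product of `j + 1` commutators -/
lemma Tower.pc_conj {a b : G} {j : ℕ} {q : Q G} (hq : Tower a b j q) :
    ∀ p : G, PC (j + 1) (q.x * (p * q.y * p⁻¹)) := by
  induction hq with
  | zero =>
    intro p
    have : (q0 a b).x * (p * (q0 a b).y * p⁻¹) =
        a * (p * b⁻¹) * a⁻¹ * (p * b⁻¹)⁻¹ := by
      simp only [q0]; group
    rw [this]
    exact PC.one _ _
  | @succ j q s t hq hs ht ih =>
    intro p
    set y' : G := (nxt q s t).y with hy'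
    have e : (nxt q s t).x * (p * y' * p⁻¹) =
        s⁻¹ * (q.x * (1 * q.y * 1⁻¹)) * s⁻¹⁻¹ *
          (t * (y'⁻¹ * (t⁻¹ * p) * y'⁻¹⁻¹ * (t⁻¹ * p)⁻¹) * t⁻¹) := by
      have h1 : s⁻¹ * (q.x * (1 * q.y * 1⁻¹)) * s⁻¹⁻¹ = (nxt q s t).x * (t * y' * t⁻¹) := by
        rw [hy']; simp only [nxt]; group
      rw [h1]; group
    rw [e]
    exact ((ih 1).conj _).mul ((PC.one _ _).conj _)

/-- The upper bound. -/
theorem Tower.pc {a b : G} {j : ℕ} {q : Q G} (hq : Tower a b j q) (r : ℕ) :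
    PC (r + 1 + j) ((q.x * q.y) ^ (2 * r + 1)) := by
  have e : (q.x * q.y) ^ (2 * r + 1) =
      q.x * ((q.y * q.x) ^ r * q.y * ((q.y * q.x) ^ r)⁻¹) *
        ((q.y * q.x) ^ r * (q.x * q.y) ^ r) := by
    have h1 : ∀ k : ℕ, (q.x * q.y) ^ k * q.x = q.x * (q.y * q.x) ^ k := by
      intro k
      induction k with
      | zero => simp
      | succ k ih => rw [pow_succ', mul_assoc, ih, pow_succ']; simp only [mul_assoc]
    calc (q.x * q.y) ^ (2 * r + 1) = (q.x * q.y) ^ r * q.x * q.y * (q.x * q.y) ^ r := by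
          rw [show 2 * r + 1 = r + 1 + r by ring, pow_add, pow_succ]; group
      _ = _ := by rw [h1]; group
  rw [e, show r + 1 + j = j + 1 + r by ring]
  exact (hq.pc_conj _).mul (hq.inv.pc_pow r)

/-- for even exponents -/
theorem Tower.pc_even {a b : G} {j : ℕ} {q : Q G} (hq : Tower a b j q) (r : ℕ) :
    PC r ((q.y * q.x) ^ r * (q.x * q.y) ^ r) := hq.inv.pc_pow r

/-- `x y` lies in the commutator subgroup -/
lemma Tower.mem {a b : G} {j : ℕ} {q : Q G} (hq : Tower a b j q) :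
    q.x * q.y ∈ commutator G := by
  have := hq.pc 0
  simp only [mul_zero, zero_add, pow_one] at this
  exact this.mem_commutator

/-- `cl` form of the upper bound -/
theorem Tower.cl_le {a b : G} {j : ℕ} {q : Q G} (hq : Tower a b j q) (r : ℕ) :
    cl ((q.x * q.y) ^ (2 * r + 1)) ≤ r + 1 + j :=
  Nat.sInf_le (hq.pc r)

/-- the tower with `s = (x y) ^ N j` and `t = z' ^ M j` -/
def fam (a b : G) (N M : ℕ → ℕ) : ℕ → Q G
  | 0 => q0 a b
  | j + 1 =>
    nxt (fam a b N M j) (((fam a b N M j).x * (fam a b N M j).y) ^ N j)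
      ((nz (fam a b N M j) (((fam a b N M j).x * (fam a b N M j).y) ^ N j)) ^ M j)

lemma tower_fam (a b : G) (N M : ℕ → ℕ) (j : ℕ) : Tower a b j (fam a b N M j) := by
  induction j with
  | zero => exact Tower.zero
  | succ j ih =>
    exact Tower.succ _ _ ih ((Commute.refl _).pow_left _) ((Commute.refl _).pow_left _)

/-- images of towers -/
def Q.map {H : Type*} [Group H] (f : G →* H) (q : Q G) : Q H := ⟨f q.x, f q.y, f q.z, f q.h⟩

lemma nz_map {H : Type*} [Group H] (f : G →* H) (q : Q G) (s : G) :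
    nz (q.map f) (f s) = f (nz q s) := by
  simp [nz, Q.map]

lemma nxt_map {H : Type*} [Group H] (f : G →* H) (q : Q G) (s t : G) :
    nxt (q.map f) (f s) (f t) = (nxt q s t).map f := by
  simp [nxt, nz, Q.map]

lemma q0_map {H : Type*} [Group H] (f : G →* H) (a b : G) :
    q0 (f a) (f b) = (q0 a b).map f := by
  simp [q0, Q.map]

lemma Tower.map {H : Type*} [Group H] (f : G →* H) {a b : G} {j : ℕ} {q : Q G}
    (hq : Tower a b j q) : Tower (f a) (f b) j (q.map f) := by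
  induction hq with
  | zero => rw [← q0_map]; exact Tower.zero
  | @succ j q s t hq hs ht ih =>
    rw [← nxt_map]
    refine Tower.succ _ _ ih ?_ ?_
    · have := hs.map f
      simpa [Q.map] using this
    · rw [nz_map]; exact ht.map f

end

/-- The reduction: the lower bound for the family gives all pairs with `m` odd, `m < 2 k`. -/
theorem adm_of_lower {m : ℕ} (r j : ℕ) (hm : m = 2 * r + 1) {q : Q (FreeGroup (Fin 2))}
    {a b : FreeGroup (Fin 2)} (hq : Tower a b j q)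
    (hlow : ∀ g, PC g ((q.x * q.y) ^ m) → r + 1 + j ≤ g) : Adm (r + 1 + j) m := by
  refine ⟨q.x * q.y, hq.mem, cl_eq ?_ hlow⟩
  rw [hm]; exact hq.pc r

/-- all pairs `(k, m)`, `m` odd, from the lower bounds -/
theorem adm_odd_of_lower
    (hlow : ∀ r j : ℕ, ∃ (a b : FreeGroup (Fin 2)) (q : Q (FreeGroup (Fin 2))),
      Tower a b j q ∧ ∀ g, PC g ((q.x * q.y) ^ (2 * r + 1)) → r + 1 + j ≤ g)
    (k m : ℕ) (hm : Odd m) (hk : m < 2 * k) : Adm k m := by
  obtain ⟨r, hr⟩ := hm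
  obtain ⟨a, b, q, hq, hl⟩ := hlow r (k - (r + 1))
  have := adm_of_lower r (k - (r + 1)) hr hq (by rw [hr]; exact hl)
  rwa [show r + 1 + (k - (r + 1)) = k by omega] at this

end H85CDU
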